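import Pool.Agent.helper81.EP.SpecO

set_option autoImplicit false

open Finset
open scoped Real

noncomputable section

namespace Pool.Agent.EP

theorem OS_large (a : ℝ) (ha : 0 < a) (K : ℝ) : ∃ Z₃ : ℕ, ∀ Z : ℕ, Z₃ ≤ Z →
    1 ≤ (Z : ℝ) ∧ K ≤ (Z : ℝ) ^ a := by
  have h1 := (tendsto_rpow_atTop ha).comp (tendsto_natCast_atTop_atTop (R := ℝ))
  have h2 := (h1.eventually_ge_atTop K).and (Filter.eventually_ge_atTop 1)
  obtain ⟨Z₃, hZ₃⟩ := Filter.eventually_atTop.mp h2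
  refine ⟨Z₃, fun Z hZ => ?_⟩
  obtain ⟨h3, h4⟩ := hZ₃ Z hZ
  exact ⟨by exact_mod_cast h4, h3⟩

theorem OS (h1 : OS1_stmt) (h2 : OS2_stmt) : OS_stmt := by
  intro β hβ0 hβ1 hL η hη
  have hden : 0 < 5 / 4 + β := by linarith
  obtain ⟨β', hβ'⟩ : ∃ β', β' = (1 / 2 + β) / (5 / 4 + β) := ⟨_, rfl⟩
  rw [← hβ']
  have hb1 : 2 / 5 ≤ β' := by
    rw [hβ', le_div_iff₀ hden]
    linarith
  have hb2 : β' ≤ 14 / 23 := by
    rw [hβ', div_le_iff₀ hden]
    linarith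
  have hid : (1 - β') * (β + 1 / 2) + β' / 4 = β' := by
    have h3 : β' * (5 / 4 + β) = 1 / 2 + β := by
      rw [hβ']
      field_simp
    linarith
  obtain ⟨ε, hε⟩ : ∃ ε, ε = min (η / 60) (1 / 500) := ⟨_, rfl⟩
  have hε0 : 0 < ε := by
    rw [hε]
    exact lt_min (by linarith) (by norm_num)
  have hε1 : ε ≤ 1 / 500 := by
    rw [hε]
    exact min_le_right _ _
  have hε2 : 60 * ε ≤ η := by
    have : ε ≤ η / 60 := by
      rw [hε]
      exact min_le_left _ _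
    linarith
  obtain ⟨Z₁, hZ₁⟩ := h1 ε hε0 hε1
  obtain ⟨Z₂, hZ₂⟩ := h2 β hβ0 (by linarith) hL ε hε0 hε1
  obtain ⟨Z₃, hZ₃⟩ := OS_large (20 * ε) (by linarith) 4096
  refine ⟨max Z₁ (max Z₂ Z₃), fun Z hZ => ?_⟩
  have hZ1 : Z₁ ≤ Z := (le_max_left _ _).trans hZ
  have hZ2 : Z₂ ≤ Z := ((le_max_left _ _).trans (le_max_right _ _)).trans hZ
  have hZ3 : Z₃ ≤ Z := ((le_max_right _ _).trans (le_max_right _ _)).trans hZ
  obtain ⟨hz1, hzK⟩ := hZ₃ Z hZ3
  obtain ⟨z, hzdef⟩ : ∃ z : ℝ, z = (Z : ℝ) := ⟨_, rfl⟩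
  rw [← hzdef] at hz1 hzK ⊢
  have hz0 : 0 < z := by linarith
  have hmono : ∀ a c : ℝ, a ≤ c → z ^ a ≤ z ^ c := fun a c h =>
    Real.rpow_le_rpow_of_exponent_le hz1 h
  have hK : ∀ a : ℝ, 20 * ε ≤ a → 4096 ≤ z ^ a := fun a ha => hzK.trans (hmono _ _ ha)
  have hpos : ∀ a : ℝ, 0 < z ^ a := fun a => Real.rpow_pos_of_pos hz0 a
  have hadd : ∀ a c : ℝ, z ^ a * z ^ c = z ^ (a + c) := fun a c => (Real.rpow_add hz0 a c).symm
  -- the number `b`
  obtain ⟨N, hN⟩ : ∃ N : ℕ, N = ⌊z ^ β'⌋₊ := ⟨_, rfl⟩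
  have hβK : 4096 ≤ z ^ β' := hK β' (by linarith)
  have hN0 : N ≠ 0 := by
    rw [hN]
    apply ne_of_gt
    apply Nat.floor_pos.mpr
    linarith
  obtain ⟨b, hb⟩ : ∃ b : ℕ, b = Nat.log 16 N := ⟨_, rfl⟩
  have h16a : (16 : ℝ) ^ b ≤ z ^ β' := by
    have h3 : 16 ^ b ≤ N := by
      rw [hb]
      exact Nat.pow_log_le_self 16 hN0
    have h4 : ((16 ^ b : ℕ) : ℝ) ≤ (N : ℝ) := by exact_mod_cast h3
    have h5 : (N : ℝ) ≤ z ^ β' := by
      rw [hN]
      exact Nat.floor_le (hpos _).le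
    push_cast at h4
    linarith
  have h16b : z ^ β' < 16 * (16 : ℝ) ^ b := by
    have h3 : N < 16 ^ (b + 1) := by
      rw [hb]
      exact Nat.lt_pow_succ_log_self (by norm_num) N
    have h4 : ((N + 1 : ℕ) : ℝ) ≤ ((16 ^ (b + 1) : ℕ) : ℝ) := by exact_mod_cast h3
    have h5 : z ^ β' < (N : ℝ) + 1 := by
      rw [hN]
      exact Nat.lt_floor_add_one _
    push_cast at h4
    rw [pow_succ] at h4
    linarith
  have hb2' : 2 ≤ b := by
    by_contra hcon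
    have h3 : b ≤ 1 := by omega
    have h4 : (16 : ℝ) ^ b ≤ 16 ^ 1 := pow_le_pow_right₀ (by norm_num) h3
    linarith
  have h4sq : ((4 : ℝ) ^ b) ^ 2 = 16 ^ b := by
    rw [← pow_mul, mul_comm, pow_mul]
    norm_num
  have h2sq : ((2 : ℝ) ^ b) ^ 2 = 4 ^ b := by
    rw [← pow_mul, mul_comm, pow_mul]
    norm_num
  have hz2 : (z ^ (β' / 2)) ^ 2 = z ^ β' := by
    rw [pow_two, hadd]
    congr 1
    ring
  have hz4 : (z ^ (β' / 4)) ^ 2 = z ^ (β' / 2) := by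
    rw [pow_two, hadd]
    congr 1
    ring
  have h4a : (4 : ℝ) ^ b ≤ z ^ (β' / 2) := by
    apply (sq_le_sq₀ (by positivity) (hpos _).le).mp
    rw [h4sq, hz2]
    exact h16a
  have h4b : z ^ (β' / 2) < 4 * (4 : ℝ) ^ b := by
    apply (sq_lt_sq₀ (hpos _).le (by positivity)).mp
    rw [hz2, mul_pow, h4sq]
    linarith
  have h2b : z ^ (β' / 4) < 2 * (2 : ℝ) ^ b := by
    apply (sq_lt_sq₀ (hpos _).le (by positivity)).mp
    rw [hz4, mul_pow, h2sq]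
    linarith
  -- the number `Y`
  obtain ⟨Y, hY⟩ : ∃ Y : ℕ, Y = Z / 16 ^ b := ⟨_, rfl⟩
  have hYle : 16 ^ b * Y ≤ Z := by
    rw [hY]
    exact Nat.mul_div_le Z (16 ^ b)
  have hp16 : (0 : ℝ) < 16 ^ b := by positivity
  have hYlt : z < 16 ^ b * ((Y : ℝ) + 1) := by
    have h3 : Z < 16 ^ b * (Z / 16 ^ b + 1) := Nat.lt_mul_div_succ Z (by positivity)
    rw [← hY] at h3
    rw [hzdef]
    exact_mod_cast h3
  have hYge : z ^ (1 - β') / 2 ≤ (Y : ℝ) := by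
    have h3 : z ^ (1 - β') * z ^ β' = z := by
      rw [hadd]
      have : 1 - β' + β' = 1 := by ring
      rw [this, Real.rpow_one]
    have h4 : z ^ (1 - β') < (Y : ℝ) + 1 := by
      by_contra hcon
      push Not at hcon
      have h5 : 16 ^ b * ((Y : ℝ) + 1) ≤ z ^ β' * z ^ (1 - β') :=
        mul_le_mul h16a hcon (by positivity) (hpos _).le
      rw [mul_comm (z ^ β')] at h5
      linarith
    have h5 : 4096 ≤ z ^ (1 - β') := hK _ (by linarith)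
    linarith
  have hc2 : 4 * 4 ^ b ≤ Y := by
    have h3 : z ^ (β' / 2) * z ^ (1 - 3 * β' / 2) = z ^ (1 - β') := by
      rw [hadd]
      congr 1
      ring
    have h4 : 4096 ≤ z ^ (1 - 3 * β' / 2) := hK _ (by linarith)
    have h5 : z ^ (β' / 2) * 4096 ≤ z ^ (1 - β') := by
      rw [← h3]
      exact mul_le_mul_of_nonneg_left h4 (hpos _).le
    have h6 := hpos (β' / 2)
    have h7 : (4 : ℝ) * 4 ^ b ≤ Y := by linarith
    exact_mod_cast h7
  have hc3 : z ^ (20 * ε) ≤ (Y : ℝ) := by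
    have h3 : z ^ (20 * ε) * z ^ (1 - β' - 20 * ε) = z ^ (1 - β') := by
      rw [hadd]
      congr 1
      ring
    have h4 : 4096 ≤ z ^ (1 - β' - 20 * ε) := hK _ (by linarith)
    have h5 : z ^ (20 * ε) * 4096 ≤ z ^ (1 - β') := by
      rw [← h3]
      exact mul_le_mul_of_nonneg_left h4 (hpos _).le
    have h6 := hpos (20 * ε)
    linarith
  have hc4 : z ^ (50 * ε) ≤ (4 : ℝ) ^ b := by
    have h3 : z ^ (50 * ε) * z ^ (β' / 2 - 50 * ε) = z ^ (β' / 2) := by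
      rw [hadd]
      congr 1
      ring
    have h4 : 4096 ≤ z ^ (β' / 2 - 50 * ε) := hK _ (by linarith)
    have h5 : z ^ (50 * ε) * 4096 ≤ z ^ (β' / 2) := by
      rw [← h3]
      exact mul_le_mul_of_nonneg_left h4 (hpos _).le
    have h6 := hpos (50 * ε)
    linarith
  rcases le_total ((4 : ℝ) ^ b * z ^ (-(10 * ε))) (sO Y : ℝ) with hD | hD
  · -- dense
    have h3 := hZ₁ Z b Y hZ1 hb2' hYle (by rw [← hzdef]; exact hc4) (by rw [← hzdef]; exact hD)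
    rw [← hzdef] at h3
    refine le_trans ?_ h3
    have h4 : z ^ (β' - η) * z ^ (η - 40 * ε) = z ^ β' * z ^ (-(40 * ε)) := by
      rw [hadd, hadd]
      congr 1
      ring
    have h5 : 4096 ≤ z ^ (η - 40 * ε) := hK _ (by linarith)
    have h6 : z ^ (β' - η) * 4096 ≤ z ^ β' * z ^ (-(40 * ε)) := by
      rw [← h4]
      exact mul_le_mul_of_nonneg_left h5 (hpos _).le
    have h7 : z ^ β' * z ^ (-(40 * ε)) ≤ (16 * (16 : ℝ) ^ b) * z ^ (-(40 * ε)) :=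
      mul_le_mul_of_nonneg_right h16b.le (hpos _).le
    have h8 := hpos (β' - η)
    nlinarith
  · -- sparse
    have h3 := hZ₂ Z b Y hZ2 hb2' hYle hc2 (by rw [← hzdef]; exact hc3) (by rw [← hzdef]; exact hD)
    rw [← hzdef] at h3
    refine le_trans ?_ h3
    have hYp : (z ^ (1 - β') / 2) ^ (β + 1 / 2) ≤ (Y : ℝ) ^ (β + 1 / 2) :=
      Real.rpow_le_rpow (by have := hpos (1 - β'); linarith) hYge (by linarith)
    have h4 : z ^ ((1 - β') * (β + 1 / 2)) / 4 ≤ (z ^ (1 - β') / 2) ^ (β + 1 / 2) := by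
      rw [Real.div_rpow (hpos _).le (by norm_num), ← Real.rpow_mul hz0.le]
      apply div_le_div_of_nonneg_left (hpos _).le (by positivity)
      calc (2 : ℝ) ^ (β + 1 / 2) ≤ 2 ^ (2 : ℝ) :=
            Real.rpow_le_rpow_of_exponent_le (by norm_num) (by linarith)
        _ = 4 := by norm_num
    have h5 : z ^ ((1 - β') * (β + 1 / 2)) / 4 * (z ^ (β' / 4) / 2) * z ^ (-(12 * ε)) ≤
        (Y : ℝ) ^ (β + 1 / 2) * 2 ^ b * z ^ (-(12 * ε)) := by
      apply mul_le_mul_of_nonneg_right _ (hpos _).le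
      apply mul_le_mul (h4.trans hYp) (by linarith) (by have := hpos (β' / 4); linarith)
      exact Real.rpow_nonneg (Nat.cast_nonneg _) _
    refine le_trans ?_ h5
    have h6 : z ^ ((1 - β') * (β + 1 / 2)) / 4 * (z ^ (β' / 4) / 2) * z ^ (-(12 * ε)) =
        z ^ (β' - 12 * ε) / 8 := by
      have e1 : z ^ ((1 - β') * (β + 1 / 2)) * z ^ (β' / 4) * z ^ (-(12 * ε)) =
          z ^ (β' - 12 * ε) := by
        rw [hadd, hadd]
        congr 1
        linarith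
      rw [← e1]
      ring
    rw [h6]
    have h7 : z ^ (β' - η) * z ^ (η - 12 * ε) = z ^ (β' - 12 * ε) := by
      rw [hadd]
      congr 1
      ring
    have h8 : 4096 ≤ z ^ (η - 12 * ε) := hK _ (by linarith)
    have h9 : z ^ (β' - η) * 4096 ≤ z ^ (β' - 12 * ε) := by
      rw [← h7]
      exact mul_le_mul_of_nonneg_left h8 (hpos _).le
    have h10 := hpos (β' - η)
    linarith

end Pool.Agent.EP
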