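import Pool.Agent.helper81.EP.SpecO

set_option autoImplicit false

open Finset
open scoped Real

noncomputable section

namespace Pool.Agent.EP

theorem OW_lt (b w : ℕ) (h : 3 * w ^ 2 < 4 ^ b) : w < 2 ^ b := by
  by_contra hcon
  push Not at hcon
  have h1 : (2 ^ b) ^ 2 ≤ w ^ 2 := Nat.pow_le_pow_left hcon 2
  have h2 : (2 ^ b) ^ 2 = 4 ^ b := by
    rw [← pow_mul, mul_comm, pow_mul]
    norm_num
  omega

/-- the diameter of the set -/
theorem OW_diam (b e j w₀ w₁ : ℕ) (h0 : 3 * w₀ ^ 2 < 4 ^ b) (h1 : 3 * w₁ ^ 2 < 4 ^ b)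
    (hle : w₀ ≤ w₁) (hE : 4 ^ b - 3 * w₀ ^ 2 < 2 ^ b * e * j) : w₁ < w₀ + (2 * (e * j) + 1) := by
  have h2 : (2 ^ b) ^ 2 = 4 ^ b := by
    rw [← pow_mul, mul_comm, pow_mul]
    norm_num
  have hp : 0 < 2 ^ b := by positivity
  by_cases hA : 4 ^ b ≤ 2 * (2 ^ b * e * j)
  · have h3 : 2 ^ b ≤ 2 * (e * j) := by
      have h4 : 2 ^ b * 2 ^ b ≤ 2 ^ b * (2 * (e * j)) := by
        calc 2 ^ b * 2 ^ b = 4 ^ b := by rw [← h2, pow_two]
          _ ≤ 2 * (2 ^ b * e * j) := hA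
          _ = 2 ^ b * (2 * (e * j)) := by ring
      exact Nat.le_of_mul_le_mul_left h4 hp
    have h5 := OW_lt b w₁ h1
    omega
  · push Not at hA
    obtain ⟨t, rfl⟩ := Nat.exists_eq_add_of_le hle
    have h3 : 4 ^ b < 6 * w₀ ^ 2 := by omega
    have h4 : 2 ^ b < 12 * w₀ := by
      by_contra hcon
      push Not at hcon
      have h5 : (12 * w₀) ^ 2 ≤ (2 ^ b) ^ 2 := Nat.pow_le_pow_left hcon 2
      rw [h2] at h5
      have h6 : (12 * w₀) ^ 2 = 144 * w₀ ^ 2 := by ring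
      omega
    have h5 : 6 * w₀ * t + 3 * w₀ ^ 2 < 4 ^ b := by
      have h6 : 3 * (w₀ + t) ^ 2 = 6 * w₀ * t + 3 * w₀ ^ 2 + 3 * t ^ 2 := by ring
      omega
    have h6 : 6 * w₀ * t < 2 ^ b * e * j := by omega
    have h7 : 2 ^ b * t ≤ 2 ^ b * (2 * (e * j)) := by
      calc 2 ^ b * t ≤ 12 * w₀ * t := Nat.mul_le_mul_right t h4.le
        _ = 2 * (6 * w₀ * t) := by ring
        _ ≤ 2 * (2 ^ b * e * j) := by omega
        _ = 2 ^ b * (2 * (e * j)) := by ring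
    have h8 := Nat.le_of_mul_le_mul_left h7 hp
    omega

theorem OW (hOI : OI_stmt) : OW_stmt := by
  intro b e j hb hj
  set S := {w ∈ ws (4 ^ b) | j ∣ 4 ^ b - 3 * w ^ 2 ∧ 4 ^ b - 3 * w ^ 2 < 2 ^ b * e * j} with hS
  rcases S.eq_empty_or_nonempty with h0 | hne
  · rw [h0, Finset.card_empty]
    exact Nat.zero_le _
  have hmem : ∀ w ∈ S, w % 2 = 1 ∧ 3 * w ^ 2 < 4 ^ b ∧ j ∣ 4 ^ b - 3 * w ^ 2 ∧
      4 ^ b - 3 * w ^ 2 < 2 ^ b * e * j := by
    intro w hw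
    rw [hS, Finset.mem_filter] at hw
    obtain ⟨h1, h2, h3⟩ := hw
    unfold ws at h1
    rw [Finset.mem_filter] at h1
    exact ⟨h1.2.1, h1.2.2, h2, h3⟩
  set w₀ := S.min' hne with hw0
  have h0S : w₀ ∈ S := S.min'_mem hne
  obtain ⟨a1, a2, a3, a4⟩ := hmem w₀ h0S
  have hA2 : 2 ∣ 4 ^ b := dvd_pow (by norm_num) (by omega)
  have hA3 : 4 ^ b % 3 = 1 := by
    rw [Nat.pow_mod]
    norm_num
  have hjodd : j % 2 = 1 := by
    by_contra hcon
    have h1 : 2 ∣ j := by omega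
    have h2 : 2 ∣ 4 ^ b - 3 * w₀ ^ 2 := h1.trans a3
    have h3 : 2 ∣ 3 * w₀ ^ 2 := by omega
    have h4 : 2 ∣ w₀ ^ 2 := by omega
    have h5 : 2 ∣ w₀ := Nat.prime_two.dvd_of_dvd_pow h4
    omega
  have hj3 : ¬ 3 ∣ j := by
    intro h1
    have h2 : 3 ∣ 4 ^ b - 3 * w₀ ^ 2 := h1.trans a3
    omega
  have hOI' := hOI j (2 * (e * j) + 1) (-(4 ^ b : ℤ)) (w₀ : ℤ) hjodd hj3
  have hcard : S.card ≤ #{u ∈ Finset.Ico (w₀ : ℤ) ((w₀ : ℤ) + ((2 * (e * j) + 1 : ℕ) : ℤ)) |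
      (j : ℤ) ∣ 3 * u ^ 2 + (-(4 ^ b : ℤ)) ∧ Int.gcd u j = 1} := by
    refine Finset.card_le_card_of_injOn (fun w : ℕ => (w : ℤ)) ?_ ?_
    · intro w hw
      have hw' : w ∈ S := hw
      obtain ⟨b1, b2, b3, b4⟩ := hmem w hw'
      have hle : w₀ ≤ w := S.min'_le w hw'
      have hlt := OW_diam b e j w₀ w a2 b2 hle a4
      show (w : ℤ) ∈ ({u ∈ Finset.Ico (w₀ : ℤ) ((w₀ : ℤ) + ((2 * (e * j) + 1 : ℕ) : ℤ)) |
        (j : ℤ) ∣ 3 * u ^ 2 + (-(4 ^ b : ℤ)) ∧ Int.gcd u j = 1} : Finset ℤ)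
      rw [Finset.mem_filter, Finset.mem_Ico]
      refine ⟨⟨by exact_mod_cast hle, by exact_mod_cast hlt⟩, ?_, ?_⟩
      · have h1 : ((4 ^ b - 3 * w ^ 2 : ℕ) : ℤ) = 4 ^ b - 3 * (w : ℤ) ^ 2 := by
          rw [Nat.cast_sub b2.le]
          push_cast
          ring
        have h2 : (j : ℤ) ∣ ((4 ^ b - 3 * w ^ 2 : ℕ) : ℤ) := by exact_mod_cast b3
        rw [h1] at h2
        have h3 : 3 * (w : ℤ) ^ 2 + (-(4 ^ b : ℤ)) = -(4 ^ b - 3 * (w : ℤ) ^ 2) := by ring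
        rw [h3]
        exact (dvd_neg).mpr h2
      · have h1 : Nat.Coprime w j := by
          apply Nat.Coprime.symm
          apply Nat.coprime_of_dvd
          intro p hp hpj hpw
          have h2 : p ∣ 4 ^ b - 3 * w ^ 2 := hpj.trans b3
          have h3 : p ∣ 3 * w ^ 2 := Dvd.dvd.mul_left (Dvd.dvd.pow hpw (by norm_num)) 3
          have h4 : p ∣ 4 ^ b := by
            have h5 := Nat.dvd_add h2 h3
            rwa [Nat.sub_add_cancel b2.le] at h5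
          have h5 : p ∣ 4 := hp.dvd_of_dvd_pow h4
          have h6 : p ∣ 2 := by
            have h7 : (4 : ℕ) = 2 ^ 2 := by norm_num
            rw [h7] at h5
            exact hp.dvd_of_dvd_pow h5
          have h8 : p = 2 := (Nat.prime_dvd_prime_iff_eq hp Nat.prime_two).mp h6
          rw [h8] at hpj
          omega
        rw [Int.gcd_natCast_natCast]
        exact h1
    · intro x _ y _ hxy
      have hxy' : (x : ℤ) = (y : ℤ) := hxy
      exact_mod_cast hxy'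
  refine hcard.trans (hOI'.trans ?_)
  apply Nat.mul_le_mul_right
  have h1 : (2 * (e * j) + 1) / j ≤ 2 * e + 1 := by
    apply Nat.le_of_lt_succ
    rw [Nat.div_lt_iff_lt_mul hj]
    have h2 : (2 * e + 1).succ * j = 2 * (e * j) + 2 * j := by
      rw [Nat.succ_eq_add_one]
      ring
    rw [h2]
    omega
  omega

end Pool.Agent.EP
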